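import Pool.Agent.R457.PL.D

/-!
# The strict Jensen gap in the planted random subsequence model

For `X` uniform on `{0,1}^N`, `σ` uniform on the strictly increasing maps `[M] → [N]` and
`Y = X ∘ σ` let `Z` be the number of embeddings of `Y` into `X`. We tilt the letters of `X` at the
unused positions: with `g = ∏ (1 ∓ ε)`, the product over the unused positions `v` (with a used
position after `v`), the sign being `-` if the letter at `v` is equal to the letter at the next used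
position, Jensen's inequality gives `E log Z ≤ log E[Z g] - E log g ≤ log E[Z g] + ε² N`.
The expectation `E[Z g]` is computed exactly, by a linear recursion (a pinned walk), and is
exponentially smaller than `E[Z]`, at a rate which is linear in `ε`.
-/

set_option autoImplicit false

namespace Pool.Agent.Results.MP_667a4a_pr.StrictJensenGap

open Finset Filter Topology Pool.Agent.R457.PL

open Classical in
/-- the strictly increasing maps `[M] → [N]` -/
noncomputable def Sig (N M : ℕ) : Finset (Fin M → Fin N) :=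
  univ.filter fun σ => StrictMono σ

/-- the number of ways in which `Y` occurs in `X` as a subsequence -/
noncomputable def Z {N M : ℕ} (X : Fin N → Bool) (Y : Fin M → Bool) : ℕ :=
  ((Sig N M).filter fun σ => ∀ k, X (σ k) = Y k).card

/-- the expectation of `F X Y` under the planted law -/
noncomputable def Epl (N M : ℕ) (F : (Fin N → Bool) → (Fin M → Bool) → ℝ) : ℝ :=
  (∑ X : Fin N → Bool, ∑ σ ∈ Sig N M, F X (fun k => X (σ k))) / (2 ^ N * (Sig N M).card)

/-- the quenched planted free energy at finite size -/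
noncomputable def quenched (N M : ℕ) : ℝ := Epl N M (fun X Y => Real.log (Z X Y)) / N

/-- the annealed planted free energy at finite size -/
noncomputable def annealed (N M : ℕ) : ℝ := Real.log (Epl N M (fun X Y => (Z X Y : ℝ))) / N

/-! ### the tilt -/

section
variable {N M : ℕ}

theorem mem_Sig {σ : Fin M → Fin N} : σ ∈ Sig N M ↔ StrictMono σ := by
  unfold Sig; simp

theorem Z_pos (X : Fin N → Bool) {σ : Fin M → Fin N} (hσ : σ ∈ Sig N M) :
    0 < Z X (fun k => X (σ k)) := by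
  unfold Z
  exact card_pos.2 ⟨σ, by rw [mem_filter]; exact ⟨hσ, fun _ => rfl⟩⟩

/-- the tilting factor -/
noncomputable def g (ε : ℝ) (σ : Fin M → Fin N) (X : Fin N → Bool) : ℝ := ∏ v, psi ε σ v X

theorem psi_pos {ε : ℝ} (h0 : 0 ≤ ε) (h1 : ε < 1) (σ : Fin M → Fin N) (v : Fin N)
    (X : Fin N → Bool) : 0 < psi ε σ v X := by
  unfold psi
  split_ifs <;> linarith

theorem g_pos {ε : ℝ} (h0 : 0 ≤ ε) (h1 : ε < 1) (σ : Fin M → Fin N)
    (X : Fin N → Bool) : 0 < g ε σ X :=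
  prod_pos fun v _ => psi_pos h0 h1 σ v X

theorem psi_zero (σ : Fin M → Fin N) (v : Fin N) (X : Fin N → Bool) : psi 0 σ v X = 1 := by
  unfold psi
  split_ifs <;> norm_num

theorem sum_Zg (ε : ℝ) : ∑ X : Fin N → Bool, ∑ σ ∈ Sig N M,
    (Z X (fun k => X (σ k)) : ℝ) * g ε σ X = 2 ^ N * (P ε N M 0 / 2 ^ M) := by
  classical
  rw [← sum_pairs, mul_sum, sum_comm]
  refine sum_congr (by unfold Sig; rfl) fun σ hσ => ?_
  have hσ' : StrictMono σ := by simpa using hσ
  rw [mul_sum]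
  have h1 : ∀ X : Fin N → Bool, (Z X (fun k => X (σ k)) : ℝ) * g ε σ X =
      ∑ τ ∈ Sig N M, if ∀ k, X (τ k) = X (σ k) then ∏ v, psi ε σ v X else 0 := by
    intro X
    unfold Z g
    rw [card_filter]
    push_cast
    rw [sum_mul]
    refine sum_congr rfl fun τ _ => ?_
    split_ifs <;> ring
  rw [sum_congr rfl fun X _ => h1 X, sum_comm]
  refine sum_congr (by unfold Sig; rfl) fun τ hτ => ?_
  exact sum_word ε hσ' (by simpa using hτ)

theorem sum_log_psi {ε : ℝ} (h0 : 0 ≤ ε) (h1 : ε ≤ 1 / 2) (σ : Fin M → Fin N) (v : Fin N) :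
    -(ε ^ 2) * 2 ^ N ≤ ∑ X : Fin N → Bool, Real.log (psi ε σ v X) := by
  have hcard : ∑ _X : Fin N → Bool, (1 : ℝ) = 2 ^ N := by simp
  by_cases h : nxt σ v = v
  · have : ∀ X : Fin N → Bool, Real.log (psi ε σ v X) = 0 := by
      intro X; unfold psi; rw [if_pos h, Real.log_one]
    rw [sum_congr rfl fun X _ => this X, sum_const_zero]
    have : 0 ≤ ε ^ 2 * 2 ^ N := by positivity
    linarith
  · have hpair : ∀ X : Fin N → Bool, -(2 * ε ^ 2) ≤
        Real.log (psi ε σ v X) + Real.log (psi ε σ v (Pool.Agent.R457.PL.flip v X)) := by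
      intro X
      have hx : Real.log (psi ε σ v X) + Real.log (psi ε σ v (Pool.Agent.R457.PL.flip v X)) =
          Real.log (1 - ε) + Real.log (1 + ε) := by
        unfold psi
        rw [if_neg h, if_neg h, flip_same, flip_ne h]
        cases X v <;> cases X (nxt σ v) <;> simp [add_comm]
      rw [hx, ← Real.log_mul (by linarith) (by linarith)]
      have h2 : (1 - ε) * (1 + ε) = 1 - ε ^ 2 := by ring
      rw [h2]
      have h3 : ε ^ 2 ≤ 1 / 4 := by nlinarith
      have h4 := Real.one_sub_inv_le_log_of_pos (show 0 < 1 - ε ^ 2 by linarith)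
      have h5 : (1 - ε ^ 2)⁻¹ ≤ 1 + 2 * ε ^ 2 := by
        rw [inv_le_iff_one_le_mul₀ (by linarith)]
        nlinarith [sq_nonneg ε]
      linarith
    have hs : 2 * ∑ X : Fin N → Bool, Real.log (psi ε σ v X) =
        ∑ X : Fin N → Bool, (Real.log (psi ε σ v X) + Real.log (psi ε σ v (Pool.Agent.R457.PL.flip v X))) := by
      rw [sum_add_distrib, sum_flip v (fun X => Real.log (psi ε σ v X))]
      ring
    have hle : ∑ _X : Fin N → Bool, (-(2 * ε ^ 2)) ≤
        ∑ X : Fin N → Bool, (Real.log (psi ε σ v X) + Real.log (psi ε σ v (Pool.Agent.R457.PL.flip v X))) :=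
      sum_le_sum fun X _ => hpair X
    have hc : ∑ _X : Fin N → Bool, (-(2 * ε ^ 2)) = -(2 * ε ^ 2) * 2 ^ N := by
      rw [← hcard, mul_sum]; simp
    rw [hc, ← hs] at hle
    linarith

theorem sum_log_g {ε : ℝ} (h0 : 0 ≤ ε) (h1 : ε ≤ 1 / 2) :
    -(ε ^ 2 * N) * (2 ^ N * (Sig N M).card) ≤
      ∑ X : Fin N → Bool, ∑ σ ∈ Sig N M, Real.log (g ε σ X) := by
  rw [sum_comm]
  have h2 : ∀ σ ∈ Sig N M, -(ε ^ 2 * N) * 2 ^ N ≤ ∑ X : Fin N → Bool, Real.log (g ε σ X) := by
    intro σ _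
    have h3 : ∀ X : Fin N → Bool, Real.log (g ε σ X) = ∑ v, Real.log (psi ε σ v X) := by
      intro X
      unfold g
      exact Real.log_prod fun v _ => (psi_pos h0 (by linarith) σ v X).ne'
    rw [sum_congr rfl fun X _ => h3 X, sum_comm]
    calc -(ε ^ 2 * N) * 2 ^ N = ∑ _v : Fin N, (-(ε ^ 2) * 2 ^ N) := by
          rw [sum_const, card_univ, Fintype.card_fin, nsmul_eq_mul]; ring
      _ ≤ _ := sum_le_sum fun v _ => sum_log_psi h0 h1 σ v
  calc -(ε ^ 2 * N) * (2 ^ N * (Sig N M).card) = ∑ _σ ∈ Sig N M, (-(ε ^ 2 * N) * 2 ^ N) := by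
        rw [sum_const, nsmul_eq_mul]; ring
    _ ≤ _ := sum_le_sum h2

/-- Jensen's inequality for the tilted partition function -/
theorem jensen {ε : ℝ} (h0 : 0 ≤ ε) (h1 : ε ≤ 1 / 2) (hS : 0 < (Sig N M).card) :
    Epl N M (fun X Y => Real.log (Z X Y)) ≤
      Real.log (2 ^ N * (P ε N M 0 / 2 ^ M) / (2 ^ N * (Sig N M).card)) + ε ^ 2 * N := by
  have hT : (0 : ℝ) < 2 ^ N * (Sig N M).card := by
    have : (0 : ℝ) < (Sig N M).card := by exact_mod_cast hS
    positivity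
  obtain ⟨σ₀, hσ₀⟩ := card_pos.1 hS
  have hZg : ∀ X : Fin N → Bool, ∀ σ ∈ Sig N M, 0 < (Z X (fun k => X (σ k)) : ℝ) * g ε σ X := by
    intro X σ hσ
    have h2 : (0 : ℝ) < Z X (fun k => X (σ k)) := by exact_mod_cast Z_pos X hσ
    exact mul_pos h2 (g_pos h0 (by linarith) σ X)
  have hA : 0 < 2 ^ N * (P ε N M 0 / 2 ^ M) := by
    rw [← sum_Zg]
    refine sum_pos (fun X _ => sum_pos (hZg X) ⟨σ₀, hσ₀⟩) ⟨fun _ => true, mem_univ _⟩
  set T : ℝ := 2 ^ N * (Sig N M).card with hTdef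
  set A : ℝ := 2 ^ N * (P ε N M 0 / 2 ^ M) with hAdef
  have ha : 0 < A / T := div_pos hA hT
  have hcardT : ∑ _X : Fin N → Bool, ∑ _σ ∈ Sig N M, (1 : ℝ) = T := by
    simp [hTdef]
  have hlog : ∀ X : Fin N → Bool, ∀ σ ∈ Sig N M,
      Real.log (Z X (fun k => X (σ k))) + Real.log (g ε σ X) ≤
        (Z X (fun k => X (σ k)) : ℝ) * g ε σ X * (T / A) - 1 + Real.log (A / T) := by
    intro X σ hσ
    have h2 : (0 : ℝ) < Z X (fun k => X (σ k)) := by exact_mod_cast Z_pos X hσ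
    rw [← Real.log_mul h2.ne' (g_pos h0 (by linarith) σ X).ne']
    have h3 := Real.log_le_sub_one_of_pos (div_pos (hZg X σ hσ) ha)
    rw [Real.log_div (hZg X σ hσ).ne' ha.ne'] at h3
    have h4 : (Z X (fun k => X (σ k)) : ℝ) * g ε σ X / (A / T) =
        (Z X (fun k => X (σ k)) : ℝ) * g ε σ X * (T / A) := by
      rw [div_eq_mul_inv, inv_div]
    rw [h4] at h3
    linarith
  have hsum : ∑ X : Fin N → Bool, ∑ σ ∈ Sig N M,
      (Real.log (Z X (fun k => X (σ k))) + Real.log (g ε σ X)) ≤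
      ∑ X : Fin N → Bool, ∑ σ ∈ Sig N M,
        ((Z X (fun k => X (σ k)) : ℝ) * g ε σ X * (T / A) - 1 + Real.log (A / T)) :=
    sum_le_sum fun X _ => sum_le_sum fun σ hσ => hlog X σ hσ
  have hrhs : ∑ X : Fin N → Bool, ∑ σ ∈ Sig N M,
        ((Z X (fun k => X (σ k)) : ℝ) * g ε σ X * (T / A) - 1 + Real.log (A / T)) =
      T * Real.log (A / T) := by
    have e1 : ∀ X : Fin N → Bool, ∑ σ ∈ Sig N M,
        ((Z X (fun k => X (σ k)) : ℝ) * g ε σ X * (T / A) - 1 + Real.log (A / T)) =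
        (∑ σ ∈ Sig N M, (Z X (fun k => X (σ k)) : ℝ) * g ε σ X) * (T / A) +
        (∑ _σ ∈ Sig N M, (1 : ℝ)) * (Real.log (A / T) - 1) := by
      intro X
      rw [sum_mul, sum_mul, ← sum_add_distrib]
      exact sum_congr rfl fun σ _ => by ring
    rw [sum_congr rfl fun X _ => e1 X, sum_add_distrib, ← sum_mul, ← sum_mul, hcardT, sum_Zg,
      ← hAdef, mul_div_assoc', mul_comm A T, mul_div_assoc, div_self hA.ne']
    ring
  rw [hrhs] at hsum
  have hsplit : ∑ X : Fin N → Bool, ∑ σ ∈ Sig N M,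
      (Real.log (Z X (fun k => X (σ k))) + Real.log (g ε σ X)) =
      ∑ X : Fin N → Bool, ∑ σ ∈ Sig N M, Real.log (Z X (fun k => X (σ k))) +
      ∑ X : Fin N → Bool, ∑ σ ∈ Sig N M, Real.log (g ε σ X) := by
    simp only [sum_add_distrib]
  rw [hsplit] at hsum
  have hg := sum_log_g (N := N) (M := M) h0 h1
  rw [← hTdef] at hg
  unfold Epl
  rw [← hTdef, div_le_iff₀ hT]
  linarith

end

theorem gap {α : ℝ} (hα0 : 0 < α) (hα1 : α < 1) : ∃ c > 0, ∃ δ > 0, ∃ N₀ : ℕ, ∀ N ≥ N₀,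
    ∀ M : ℕ, |(M : ℝ) - α * N| ≤ δ * N → quenched N M ≤ annealed N M - c := by
  obtain ⟨ε, hε0, hε1, c, hc, δ, hδ, N₀, h⟩ := compare hα0 hα1
  refine ⟨c, hc, δ, hδ, max N₀ 1, ?_⟩
  intro N hN M hM
  have hN0 : N₀ ≤ N := (le_max_left _ _).trans hN
  have hN1 : 1 ≤ N := (le_max_right _ _).trans hN
  have hNpos : (0 : ℝ) < N := by exact_mod_cast hN1
  obtain ⟨hP, hle⟩ := h N hN0 M hM
  have hZ0 : ∑ X : Fin N → Bool, ∑ σ ∈ Sig N M, (Z X (fun k => X (σ k)) : ℝ) =
      2 ^ N * (P 0 N M 0 / 2 ^ M) := by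
    rw [← sum_Zg]
    refine sum_congr rfl fun X _ => sum_congr rfl fun σ _ => ?_
    unfold g
    rw [prod_congr rfl fun v _ => psi_zero σ v X, prod_const_one, mul_one]
  have hS : 0 < (Sig N M).card := by
    by_contra hcon
    have h0 : Sig N M = ∅ := by
      rw [← card_eq_zero]; omega
    rw [h0] at hZ0
    simp only [sum_empty, sum_const_zero] at hZ0
    have : 0 < 2 ^ N * (P 0 N M 0 / 2 ^ M) := by positivity
    linarith
  have hSr : (0 : ℝ) < (Sig N M).card := by exact_mod_cast hS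
  have hj := jensen (N := N) (M := M) hε0.le hε1 hS
  have hE : Epl N M (fun X Y => (Z X Y : ℝ)) =
      2 ^ N * (P 0 N M 0 / 2 ^ M) / (2 ^ N * (Sig N M).card) := by
    unfold Epl
    rw [hZ0]
  have hεpos : 0 < 2 ^ N * (P ε N M 0 / 2 ^ M) := by
    rw [← sum_Zg]
    obtain ⟨σ₀, hσ₀⟩ := card_pos.1 hS
    refine sum_pos (fun X _ => sum_pos (fun σ hσ => ?_) ⟨σ₀, hσ₀⟩) ⟨fun _ => true, mem_univ _⟩
    have h2 : (0 : ℝ) < Z X (fun k => X (σ k)) := by exact_mod_cast Z_pos X hσ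
    exact mul_pos h2 (g_pos hε0.le (by linarith) σ X)
  have hlog : Real.log (2 ^ N * (P ε N M 0 / 2 ^ M) / (2 ^ N * (Sig N M).card)) ≤
      Real.log (Epl N M (fun X Y => (Z X Y : ℝ))) - (ε ^ 2 + c) * N := by
    have h1 : 2 ^ N * (P ε N M 0 / 2 ^ M) / (2 ^ N * (Sig N M).card) ≤
        Epl N M (fun X Y => (Z X Y : ℝ)) * Real.exp (-(ε ^ 2 + c) * N) := by
      rw [hE]
      have : 2 ^ N * (P 0 N M 0 / 2 ^ M) / (2 ^ N * (Sig N M).card) *
          Real.exp (-(ε ^ 2 + c) * N) =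
          2 ^ N * (P 0 N M 0 * Real.exp (-(ε ^ 2 + c) * N) / 2 ^ M) /
            (2 ^ N * (Sig N M).card) := by ring
      rw [this]
      gcongr
    have h2 : 0 < Epl N M (fun X Y => (Z X Y : ℝ)) := by rw [hE]; positivity
    have h3 := Real.log_le_log (by positivity) h1
    rw [Real.log_mul h2.ne' (Real.exp_pos _).ne', Real.log_exp] at h3
    linarith
  unfold quenched annealed
  rw [div_le_iff₀ hNpos, sub_mul, div_mul_cancel₀ _ hNpos.ne']
  linarith

/-- **The strict Jensen gap.** For every `α ∈ (0,1)` the quenched planted free energy is smaller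
than the annealed one by a positive constant, uniformly for all large `N` and all `M` with `M / N`
close to `α`; in particular `f_pl(α) < f_pl^ann(α)` for the limits along any sequence `(N, M)` with
`N → ∞` and `M / N → α`. -/
theorem result :
    (∀ α : ℝ, 0 < α → α < 1 → ∃ c > 0, ∃ δ > 0, ∃ N₀ : ℕ, ∀ N ≥ N₀, ∀ M : ℕ,
      |(M : ℝ) - α * N| ≤ δ * N → quenched N M ≤ annealed N M - c) ∧
    (∀ α : ℝ, 0 < α → α < 1 → ∀ Ns Ms : ℕ → ℕ, Tendsto Ns atTop atTop →
      Tendsto (fun k => (Ms k : ℝ) / Ns k) atTop (𝓝 α) → ∀ f fann : ℝ,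
      Tendsto (fun k => quenched (Ns k) (Ms k)) atTop (𝓝 f) →
      Tendsto (fun k => annealed (Ns k) (Ms k)) atTop (𝓝 fann) → f < fann) := by
  refine ⟨fun α h0 h1 => gap h0 h1, ?_⟩
  intro α h0 h1 Ns Ms hN hM f fann hf hg
  obtain ⟨c, hc, δ, hδ, N₀, h⟩ := gap h0 h1
  have hev : ∀ᶠ k in atTop, quenched (Ns k) (Ms k) ≤ annealed (Ns k) (Ms k) - c := by
    have e1 : ∀ᶠ k in atTop, |(Ms k : ℝ) / Ns k - α| < δ := by
      have := (tendsto_iff_norm_sub_tendsto_zero.1 hM).eventually (gt_mem_nhds hδ)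
      simpa [Real.norm_eq_abs] using this
    have e2 : ∀ᶠ k in atTop, max N₀ 1 ≤ Ns k := hN.eventually (eventually_ge_atTop _)
    filter_upwards [e1, e2] with k hk1 hk2
    have hk3 : 1 ≤ Ns k := (le_max_right _ _).trans hk2
    have hk4 : (0 : ℝ) < Ns k := by exact_mod_cast hk3
    refine h (Ns k) ((le_max_left _ _).trans hk2) (Ms k) ?_
    have hk5 : (Ms k : ℝ) - α * Ns k = ((Ms k : ℝ) / Ns k - α) * Ns k := by
      rw [sub_mul, div_mul_cancel₀ _ hk4.ne']
    rw [hk5, abs_mul, abs_of_pos hk4]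
    exact mul_le_mul_of_nonneg_right hk1.le hk4.le
  have := le_of_tendsto_of_tendsto hf (hg.sub_const c) hev
  linarith

end Pool.Agent.Results.MP_667a4a_pr.StrictJensenGap
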